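import Mathlib
import Pool.Prelude.Def_F_2fcaa438
import Pool.Agent.H423R2.ZH.P_ALG
import Pool.Agent.H423R2.ZH.P_ENC
import Pool.Agent.H423R2.ZH.P_TAU
import Pool.Agent.H423R2.ZH.P_COD
import Pool.Agent.H423R2.ZH.P_ASY
import Pool.Agent.H423R2.ZH.P_PR
import Pool.Agent.H423R2.ZH.P_FIN
import Pool.Agent.H423R2.ZH.P_LIT

set_option autoImplicit false

/-!
# A lower bound for sets without nontrivial solutions of `x+2y+3z=x'+2y'+3z'`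
-/

namespace Pool.Agent.Results.MP_b9c6d3_nt.OneQuarter

open Filter Topology Ne40b1b74

/-- **Theorem.** `g(N) ≥ N^(1/4 - o(1))`. -/
theorem result : ∃ h : ℕ → ℝ, Tendsto h atTop (𝓝 0) ∧
    ∀ᶠ N : ℕ in atTop, (N : ℝ) ^ (1 / 4 - h N) ≤ (g N : ℝ) :=
  Pool.Agent.H423R2.ZH.PLIT.lit (fun N => (g N : ℝ))
    (Pool.Agent.H423R2.ZH.PFIN.fin Pool.Agent.H423R2.ZH.PPR.pr
      (Pool.Agent.H423R2.ZH.PENC.enc Pool.Agent.H423R2.ZH.PTAU.tau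
        Pool.Agent.H423R2.ZH.PALG.alg Pool.Agent.H423R2.ZH.PCOD.sph
        Pool.Agent.H423R2.ZH.PCOD.cod Pool.Agent.H423R2.ZH.PCOD.codlt)
      Pool.Agent.H423R2.ZH.PCOD.gle Pool.Agent.H423R2.ZH.PASY.asy)

end Pool.Agent.Results.MP_b9c6d3_nt.OneQuarter
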